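import Mathlib

set_option autoImplicit false

/-!
Kernel computation: for every choice of the 14 free arcs of a 7-tournament containing the circuit
`0 → 1 → ... → 6 → 0`, the number of Hamiltonian circuits is at most 15, or 17, or 24.
-/

namespace Pool.Agent.TH503.HC

/-- all lists obtained from `p` by adding `k` new distinct elements in front -/
def ext : ℕ → List (Fin 7) → List (List (Fin 7))
  | 0, p => [p]
  | k + 1, p => ((List.finRange 7).filter (fun w => !(p.elem w))).flatMap (fun w => ext k (w :: p))

/-- number of the pair `a < b`; the pairs of the fixed circuit get the numbers `14, …, 20` -/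
def idx (a b : Fin 7) : ℕ :=
  [0, 14, 0, 1, 2, 3, 20,
   0, 0, 15, 4, 5, 6, 7,
   0, 0, 0, 16, 8, 9, 10,
   0, 0, 0, 0, 17, 11, 12,
   0, 0, 0, 0, 0, 18, 13,
   0, 0, 0, 0, 0, 0, 19,
   0, 0, 0, 0, 0, 0, 0].getD (7 * a.val + b.val) 0

/-- the pair with a given number -/
def pr (k : ℕ) : Fin 7 × Fin 7 :=
  [(0, 2), (0, 3), (0, 4), (0, 5), (1, 3), (1, 4), (1, 5), (1, 6), (2, 4), (2, 5), (2, 6), (3, 5),
   (3, 6), (4, 6), (0, 1), (1, 2), (2, 3), (3, 4), (4, 5), (5, 6), (0, 6)].getD k (0, 0)

theorem pr_idx : ∀ a b : Fin 7, a < b → pr (idx a b) = (a, b) ∧ idx a b < 21 := by decide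

/-- consecutive arcs of a list written backwards -/
def chain : List (Fin 7) → List (Fin 7 × Fin 7)
  | y :: x :: r => (x, y) :: chain (x :: r)
  | _ => []

/-- the arcs of the circuit `v₀ → v₁ → ... → v₆ → v₀` for the list `[v₆, …, v₁, v₀]` -/
def arcsOf (q : List (Fin 7)) : List (Fin 7 × Fin 7) :=
  (q.headD 0, q.getLastD 0) :: chain q

def m1 (l : List (Fin 7 × Fin 7)) : ℕ :=
  l.foldr (fun p m => if p.1 < p.2 then m ||| 2 ^ (idx p.1 p.2) else m) 0

def m0 (l : List (Fin 7 × Fin 7)) : ℕ :=
  l.foldr (fun p m => if p.1 < p.2 then m else m ||| 2 ^ (idx p.2 p.1)) 0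

def mask (q : List (Fin 7)) : ℕ × ℕ := (m1 (arcsOf q), m0 (arcsOf q))

/-- the constraint `m` is violated by the value `b` of variable `k` -/
def blk (m : ℕ × ℕ) (k : ℕ) (b : Bool) : Bool := if b then m.2.testBit k else m.1.testBit k

def tree : ℕ → List (ℕ × ℕ) → Bool
  | 0, L => decide (L.length ≤ 15) || decide (L.length = 17) || decide (L.length = 24)
  | k + 1, L => decide (L.length ≤ 15) ||
      (tree k (L.filter (fun m => !blk m k true)) && tree k (L.filter (fun m => !blk m k false)))

/-- the first `k` variables do not violate the constraint `m` -/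
def sat (x : ℕ → Bool) (k : ℕ) (m : ℕ × ℕ) : Bool := (List.range k).all (fun j => !blk m j (x j))

theorem sat_iff (x : ℕ → Bool) (k : ℕ) (m : ℕ × ℕ) :
    sat x k m = true ↔ ∀ j, j < k → blk m j (x j) = false := by
  simp [sat, List.all_eq_true]

theorem tree_sound (x : ℕ → Bool) : ∀ (k : ℕ) (L : List (ℕ × ℕ)), tree k L = true →
    (L.countP (sat x k) ≤ 15 ∨ L.countP (sat x k) = 17 ∨ L.countP (sat x k) = 24) := by
  intro k
  induction k with
  | zero =>
    intro L h
    have h1 : L.countP (sat x 0) = L.length := by
      rw [List.countP_eq_length]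
      intro a _
      rw [sat_iff]
      intro j hj
      omega
    rw [h1]
    simpa [tree, or_assoc] using h
  | succ k ih =>
    intro L h
    rw [tree, Bool.or_eq_true] at h
    rcases h with h | h
    · left
      exact le_trans List.countP_le_length (by simpa using h)
    · rw [Bool.and_eq_true] at h
      have key : ∀ b : Bool, x k = b →
          L.countP (sat x (k + 1)) = (L.filter (fun m => !blk m k b)).countP (sat x k) := by
        intro b hb
        rw [List.countP_filter]
        apply List.countP_congr
        intro m _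
        rw [Bool.and_eq_true, sat_iff, sat_iff, Bool.not_eq_true']
        constructor
        · intro h2
          exact ⟨fun j hj => h2 j (by omega), by rw [← hb]; exact h2 k (by omega)⟩
        · rintro ⟨h2, h3⟩ j hj
          rcases Nat.lt_succ_iff_lt_or_eq.1 hj with h4 | h4
          · exact h2 j h4
          · subst h4; rw [hb]; exact h3
      cases hb : x k with
      | true => rw [key true hb]; exact ih _ h.1
      | false => rw [key false hb]; exact ih _ h.2

/-- the forced values -/
def xf (k : ℕ) : Bool := decide (k < 20)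

def L0 : List (ℕ × ℕ) :=
  ((ext 6 [0]).map mask).filter (fun m => [14, 15, 16, 17, 18, 19, 20].all (fun k => !blk m k (xf k)))

set_option maxRecDepth 100000 in
theorem tree_ok : tree 14 L0 = true := by decide +kernel

end Pool.Agent.TH503.HC
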