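import Pool.Agent.TH503.HC.Defs
import Pool.Agent.TH503.HC.Tree

set_option autoImplicit false

/-!
Counting Hamiltonian circuits of 7-tournaments with lists.
-/

namespace Pool.Agent.TH503.HC

theorem mem_ext : ∀ (k : ℕ) (p q : List (Fin 7)), p.Nodup →
    (q ∈ ext k p ↔ ∃ r : List (Fin 7), r.length = k ∧ q = r ++ p ∧ q.Nodup) := by
  intro k
  induction k with
  | zero =>
    intro p q hp
    simp only [ext, List.mem_singleton]
    constructor
    · rintro rfl
      exact ⟨[], rfl, rfl, hp⟩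
    · rintro ⟨r, hr, rfl, _⟩
      rw [List.length_eq_zero_iff.1 hr]
      rfl
  | succ k ih =>
    intro p q hp
    simp only [ext, List.mem_flatMap, List.mem_filter, List.mem_finRange, true_and,
      Bool.not_eq_true']
    constructor
    · rintro ⟨w, hw, hq⟩
      have hw' : w ∉ p := by
        intro h
        rw [List.elem_eq_true_of_mem h] at hw
        exact absurd hw (by simp)
      obtain ⟨r, hr, hq', hn⟩ := (ih (w :: p) q (List.nodup_cons.2 ⟨hw', hp⟩)).1 hq
      exact ⟨r ++ [w], by simp [hr], by simp [hq'], hn⟩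
    · rintro ⟨r, hr, hq, hn⟩
      have hne : r ≠ [] := by
        rintro rfl
        simp at hr
      obtain ⟨r', w, rfl⟩ : ∃ r' w, r = r' ++ [w] :=
        ⟨r.dropLast, r.getLast hne, (List.dropLast_append_getLast hne).symm⟩
      have hq' : q = r' ++ (w :: p) := by simp [hq]
      have hwp : w ∉ p := by
        rw [hq'] at hn
        have := (List.nodup_append.1 hn).2.1
        exact (List.nodup_cons.1 this).1
      refine ⟨w, ?_, ?_⟩
      · rw [Bool.eq_false_iff]
        intro h
        exact hwp (List.mem_of_elem_eq_true h)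
      · rw [ih (w :: p) q (List.nodup_cons.2 ⟨hwp, hp⟩)]
        exact ⟨r', by simpa using hr, hq', hn⟩

theorem nodup_ext : ∀ (k : ℕ) (p : List (Fin 7)), p.Nodup → (ext k p).Nodup := by
  intro k
  induction k with
  | zero => intro p _; simp [ext]
  | succ k ih =>
    intro p hp
    rw [ext, List.nodup_flatMap]
    constructor
    · intro w hw
      rw [List.mem_filter] at hw
      have hw' : w ∉ p := by
        intro h
        have h2 := hw.2
        rw [List.elem_eq_true_of_mem h] at h2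
        exact absurd h2 (by simp)
      exact ih _ (List.nodup_cons.2 ⟨hw', hp⟩)
    · have hnd : ((List.finRange 7).filter (fun w => !(p.elem w))).Nodup :=
        (List.nodup_finRange 7).filter _
      refine List.Pairwise.imp_of_mem ?_ hnd
      intro a b ha hb hab
      rw [List.mem_filter] at ha hb
      have ha' : a ∉ p := by
        intro h
        have h2 := ha.2
        rw [List.elem_eq_true_of_mem h] at h2
        exact absurd h2 (by simp)
      have hb' : b ∉ p := by
        intro h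
        have h2 := hb.2
        rw [List.elem_eq_true_of_mem h] at h2
        exact absurd h2 (by simp)
      intro q hqa hqb
      obtain ⟨r, hr, hq, _⟩ := (mem_ext k (a :: p) q (List.nodup_cons.2 ⟨ha', hp⟩)).1 hqa
      obtain ⟨r', hr', hq', _⟩ := (mem_ext k (b :: p) q (List.nodup_cons.2 ⟨hb', hp⟩)).1 hqb
      have := List.append_inj (hq.symm.trans hq') (by rw [hr, hr'])
      exact hab (List.cons.inj this.2).1

/-- the list of an enumeration -/
def lst (v : Fin 7 → Fin 7) : List (Fin 7) := [v 6, v 5, v 4, v 3, v 2, v 1, v 0]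

theorem mem_S (q : List (Fin 7)) :
    q ∈ ext 6 [0] ↔ ∃ v : Fin 7 → Fin 7, Function.Injective v ∧ v 0 = 0 ∧ q = lst v := by
  rw [mem_ext 6 [0] q (by simp)]
  constructor
  · rintro ⟨r, hr, hq, hn⟩
    match r, hr with
    | [a, b, c, d, e, f], _ =>
      refine ⟨![0, f, e, d, c, b, a], ?_, rfl, ?_⟩
      · rw [← List.nodup_ofFn]
        have h1 : List.ofFn ![0, f, e, d, c, b, a] = q.reverse := by
          rw [hq]; simp [List.ofFn_succ]
        rw [h1, List.nodup_reverse]
        exact hn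
      · rw [hq]; rfl
  · rintro ⟨v, hv, h0, rfl⟩
    refine ⟨[v 6, v 5, v 4, v 3, v 2, v 1], rfl, ?_, ?_⟩
    · simp [lst, h0]
    · have h1 : lst v = (List.ofFn v).reverse := by simp [lst, List.ofFn_succ]
      rw [h1, List.nodup_reverse, List.nodup_ofFn]
      exact hv

theorem mem_arcs (v : Fin 7 → Fin 7) (p : Fin 7 × Fin 7) :
    p ∈ arcsOf (lst v) ↔ ∃ i : Fin 7, p = (v i, v (i + 1)) := by
  have h : arcsOf (lst v) = [(v 6, v 0), (v 5, v 6), (v 4, v 5), (v 3, v 4), (v 2, v 3), (v 1, v 2),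
      (v 0, v 1)] := rfl
  rw [h]
  constructor
  · intro hp
    simp only [List.mem_cons, List.not_mem_nil, or_false] at hp
    rcases hp with h | h | h | h | h | h | h
    · exact ⟨6, h⟩
    · exact ⟨5, h⟩
    · exact ⟨4, h⟩
    · exact ⟨3, h⟩
    · exact ⟨2, h⟩
    · exact ⟨1, h⟩
    · exact ⟨0, h⟩
  · rintro ⟨i, rfl⟩
    fin_cases i <;> simp

/-- all arcs of the list are arcs of the tournament -/
def okP (T : Fin 7 → Fin 7 → Prop) (q : List (Fin 7)) : Prop := ∀ p ∈ arcsOf q, T p.1 p.2

instance (T : Fin 7 → Fin 7 → Prop) [DecidableRel T] : DecidablePred (okP T) := fun q => by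
  unfold okP; infer_instance

theorem hamCircuits_eq (T : Fin 7 → Fin 7 → Prop) :
    hamCircuits T = (fun q => {p | p ∈ arcsOf q}) '' {q | q ∈ ext 6 [0] ∧ okP T q} := by
  ext A
  constructor
  · rintro ⟨_, v, hv, hT, rfl⟩
    change Fin 7 → Fin 7 at v
    obtain ⟨i0, hi0⟩ := hv.2 0
    change Fin 7 at i0
    let w : Fin 7 → Fin 7 := fun i => v (i + i0)
    have hw : Function.Injective w := fun a b h => by
      have := hv.1 h
      exact add_right_cancel this
    have hw0 : w 0 = 0 := by
      change v (0 + i0) = 0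
      rw [zero_add]; exact hi0
    refine ⟨lst w, ⟨(mem_S _).2 ⟨w, hw, hw0, rfl⟩, ?_⟩, ?_⟩
    · intro p hp
      obtain ⟨i, rfl⟩ := (mem_arcs w p).1 hp
      change T (v (i + i0)) (v (i + 1 + i0))
      rw [add_right_comm]
      exact hT _
    · ext p
      change p ∈ arcsOf (lst w) ↔ _
      rw [mem_arcs]
      constructor
      · rintro ⟨i, rfl⟩
        exact ⟨@HAdd.hAdd (Fin 7) (Fin 7) (Fin 7) _ i i0, by
          change (v (@HAdd.hAdd (Fin 7) (Fin 7) (Fin 7) _ i i0),
            v (@HAdd.hAdd (Fin 7) (Fin 7) (Fin 7) _ i i0 + 1)) = (v (i + i0), v (i + 1 + i0))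
          rw [add_right_comm]⟩
      · rintro ⟨i, rfl⟩
        change Fin 7 at i
        refine ⟨i - i0, ?_⟩
        change (v i, v (i + 1)) = (v (i - i0 + i0), v (i - i0 + 1 + i0))
        rw [add_right_comm, sub_add_cancel]
  · rintro ⟨q, ⟨hq, hok⟩, rfl⟩
    obtain ⟨v, hv, h0, rfl⟩ := (mem_S q).1 hq
    refine ⟨by norm_num, v, ⟨hv, Finite.surjective_of_injective hv⟩, ?_, ?_⟩
    · intro i
      change Fin 7 at i
      exact hok (v i, v (i + 1)) ((mem_arcs v _).2 ⟨i, rfl⟩)
    · ext p
      change p ∈ arcsOf (lst v) ↔ _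
      rw [mem_arcs]
      constructor
      · rintro ⟨i, rfl⟩; exact ⟨i, rfl⟩
      · rintro ⟨i, rfl⟩; exact ⟨i, rfl⟩

theorem arcs_injOn : Set.InjOn (fun q : List (Fin 7) => {p | p ∈ arcsOf q})
    {q | q ∈ ext 6 [0]} := by
  intro q hq q' hq' h
  obtain ⟨v, hv, h0, rfl⟩ := (mem_S q).1 hq
  obtain ⟨w, hw, h0', rfl⟩ := (mem_S q').1 hq'
  have key : ∀ p : Fin 7 × Fin 7, (∃ i : Fin 7, p = (v i, v (i + 1))) →
      ∃ i : Fin 7, p = (w i, w (i + 1)) := by
    intro p hp
    have h1 : p ∈ {p | p ∈ arcsOf (lst v)} := (mem_arcs v p).2 hp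
    have h2 : p ∈ {p | p ∈ arcsOf (lst w)} := by
      have h3 : {p | p ∈ arcsOf (lst v)} = {p | p ∈ arcsOf (lst w)} := h
      rwa [h3] at h1
    exact (mem_arcs w p).1 h2
  have step : ∀ i : Fin 7, v i = w i → v (i + 1) = w (i + 1) := by
    intro i hi
    obtain ⟨j, hj⟩ := key (v i, v (i + 1)) ⟨i, rfl⟩
    have h1 : v i = w j := (Prod.ext_iff.1 hj).1
    have h2 : v (i + 1) = w (j + 1) := (Prod.ext_iff.1 hj).2
    have h3 : i = j := hw (hi.symm.trans h1)
    rw [h2, h3]
  have e0 : v 0 = w 0 := h0.trans h0'.symm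
  have e1 : v 1 = w 1 := step 0 e0
  have e2 : v 2 = w 2 := step 1 e1
  have e3 : v 3 = w 3 := step 2 e2
  have e4 : v 4 = w 4 := step 3 e3
  have e5 : v 5 = w 5 := step 4 e4
  have e6 : v 6 = w 6 := step 5 e5
  simp [lst, e0, e1, e2, e3, e4, e5, e6]

theorem numCircuits_eq (T : Fin 7 → Fin 7 → Prop) [DecidableRel T] :
    numCircuits T = (ext 6 [0]).countP (fun q => decide (okP T q)) := by
  classical
  unfold numCircuits
  rw [hamCircuits_eq, Set.InjOn.ncard_image]
  · have h1 : {q | q ∈ ext 6 [0] ∧ okP T q} =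
        (((ext 6 [0]).filter (fun q => decide (okP T q))).toFinset : Set (List (Fin 7))) := by
      ext q
      simp
    rw [h1, Set.ncard_coe_finset, List.toFinset_card_of_nodup ((nodup_ext 6 [0] (by simp)).filter _),
      List.countP_eq_length_filter]
  · exact arcs_injOn.mono (fun q hq => hq.1)

end Pool.Agent.TH503.HC
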