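import Mathlib

set_option autoImplicit false

/-!
Hamiltonian circuits of tournaments.
-/

namespace Pool.Agent.TH503.HC

/-- `T` is (the arc relation of) a tournament on the vertex set `Fin n`: no loops, and every pair
of distinct vertices is joined by exactly one of the two arcs. -/
def IsTournament {n : ℕ} (T : Fin n → Fin n → Prop) : Prop :=
  (∀ u, ¬ T u u) ∧ ∀ u v, u ≠ v → (T u v ∧ ¬ T v u) ∨ (T v u ∧ ¬ T u v)

/-- The set of Hamiltonian circuits of `T`, each one given by its set of arcs: the arc sets
`{(v i, v (i+1))}` of the cyclic sequences `v` that pass through every vertex exactly once and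
all of whose arcs are arcs of `T`. There are none for `n ≤ 2`. -/
def hamCircuits {n : ℕ} (T : Fin n → Fin n → Prop) : Set (Set (Fin n × Fin n)) :=
  {A | 3 ≤ n ∧ ∃ v : ZMod n → Fin n, Function.Bijective v ∧ (∀ i, T (v i) (v (i + 1))) ∧
    A = Set.range (fun i => (v i, v (i + 1)))}

/-- The number of Hamiltonian circuits. -/
noncomputable def numCircuits {n : ℕ} (T : Fin n → Fin n → Prop) : ℕ := (hamCircuits T).ncard

/-- The set of numbers `h` such that some `n`-tournament has exactly `h` Hamiltonian circuits. -/
def spectrum (n : ℕ) : Set ℕ :=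
  {h | ∃ T : Fin n → Fin n → Prop, IsTournament T ∧ numCircuits T = h}

/-- The largest number of Hamiltonian circuits that an `n`-tournament can have. -/
noncomputable def ho (n : ℕ) : ℕ := sSup (spectrum n)

end Pool.Agent.TH503.HC
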