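import Pool.Agent.TH503.HC.Count

set_option autoImplicit false

/-!
The numbers of Hamiltonian circuits of the 7-tournaments.
-/

namespace Pool.Agent.TH503.HC

theorem numCircuits_relabel (T : Fin 7 → Fin 7 → Prop) (τ : Fin 7 → Fin 7)
    (hτ : Function.Bijective τ) :
    numCircuits (fun a b => T (τ a) (τ b)) = numCircuits T := by
  have h : hamCircuits T =
      (Set.image (Prod.map τ τ)) '' hamCircuits (fun a b => T (τ a) (τ b)) := by
    ext A
    constructor
    · rintro ⟨h3, v, hv, hT, rfl⟩
      let e := Equiv.ofBijective τ hτ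
      have he : ∀ x, τ (e.symm x) = x := fun x => Equiv.ofBijective_apply_symm_apply τ hτ x
      refine ⟨Set.range (fun i => (e.symm (v i), e.symm (v (i + 1)))),
        ⟨h3, fun i => e.symm (v i), e.symm.bijective.comp hv, ?_, rfl⟩, ?_⟩
      · intro i
        change T (τ (e.symm (v i))) (τ (e.symm (v (i + 1))))
        rw [he, he]
        exact hT i
      · rw [← Set.range_comp]
        congr 1
        funext i
        change (τ (e.symm (v i)), τ (e.symm (v (i + 1)))) = _
        rw [he, he]
    · rintro ⟨B, ⟨h3, v, hv, hT, rfl⟩, rfl⟩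
      refine ⟨h3, fun i => τ (v i), hτ.comp hv, hT, ?_⟩
      rw [← Set.range_comp]
      rfl
  unfold numCircuits
  rw [h, Set.ncard_image_of_injective]
  exact Set.image_injective.2 (Function.Injective.prodMap hτ.1 hτ.1)

theorem m1_testBit (l : List (Fin 7 × Fin 7)) (k : ℕ) :
    (m1 l).testBit k = true ↔ ∃ p ∈ l, p.1 < p.2 ∧ idx p.1 p.2 = k := by
  induction l with
  | nil => simp [m1]
  | cons a l ih =>
    have h1 : m1 (a :: l) = if a.1 < a.2 then m1 l ||| 2 ^ (idx a.1 a.2) else m1 l := rfl
    rw [h1]
    by_cases h : a.1 < a.2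
    · rw [if_pos h, Nat.testBit_or, Bool.or_eq_true, ih, Nat.testBit_two_pow]
      simp only [decide_eq_true_eq, List.mem_cons, exists_eq_or_imp]
      constructor
      · rintro (h2 | h2)
        · exact Or.inr h2
        · exact Or.inl ⟨h, h2⟩
      · rintro (h2 | h2)
        · exact Or.inr h2.2
        · exact Or.inl h2
    · rw [if_neg h, ih]
      simp [h]

theorem m0_testBit (l : List (Fin 7 × Fin 7)) (k : ℕ) :
    (m0 l).testBit k = true ↔ ∃ p ∈ l, ¬ p.1 < p.2 ∧ idx p.2 p.1 = k := by
  induction l with
  | nil => simp [m0]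
  | cons a l ih =>
    have h1 : m0 (a :: l) = if a.1 < a.2 then m0 l else m0 l ||| 2 ^ (idx a.2 a.1) := rfl
    rw [h1]
    by_cases h : a.1 < a.2
    · rw [if_pos h, ih]
      simp [h]
    · rw [if_neg h, Nat.testBit_or, Bool.or_eq_true, ih, Nat.testBit_two_pow]
      simp only [decide_eq_true_eq, List.mem_cons, exists_eq_or_imp]
      constructor
      · rintro (h2 | h2)
        · exact Or.inr h2
        · exact Or.inl ⟨h, h2⟩
      · rintro (h2 | h2)
        · exact Or.inr h2.2
        · exact Or.inl h2

theorem arcs_ne (q : List (Fin 7)) (hq : q ∈ ext 6 [0]) (p : Fin 7 × Fin 7)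
    (hp : p ∈ arcsOf q) : p.1 ≠ p.2 := by
  obtain ⟨v, hv, _, rfl⟩ := (mem_S q).1 hq
  obtain ⟨i, rfl⟩ := (mem_arcs v p).1 hp
  intro h
  have h1 : i = i + 1 := hv h
  have h2 : ∀ j : Fin 7, j ≠ j + 1 := by decide
  exact h2 i h1

/-- the values of the 21 variables -/
noncomputable def val (T : Fin 7 → Fin 7 → Prop) (k : ℕ) : Bool := by
  classical exact decide (T (pr k).1 (pr k).2)

theorem val_idx (T : Fin 7 → Fin 7 → Prop) (a b : Fin 7) (h : a < b) :
    val T (idx a b) = true ↔ T a b := by
  unfold val
  rw [(pr_idx a b h).1]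
  simp

theorem okP_iff (T : Fin 7 → Fin 7 → Prop) (hT : IsTournament T) (q : List (Fin 7))
    (hq : q ∈ ext 6 [0]) : okP T q ↔ sat (val T) 21 (mask q) = true := by
  rw [sat_iff]
  constructor
  · intro h j hj
    cases hx : val T j with
    | true =>
      change (m0 (arcsOf q)).testBit j = false
      rw [Bool.eq_false_iff]
      intro h1
      obtain ⟨p, hp, hlt, hidx⟩ := (m0_testBit _ _).1 h1
      have hne := arcs_ne q hq p hp
      have hlt' : p.2 < p.1 := lt_of_le_of_ne (not_lt.1 hlt) hne.symm
      rw [← hidx, val_idx T _ _ hlt'] at hx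
      rcases hT.2 p.1 p.2 hne with h2 | h2
      · exact h2.2 hx
      · exact h2.2 (h p hp)
    | false =>
      change (m1 (arcsOf q)).testBit j = false
      rw [Bool.eq_false_iff]
      intro h1
      obtain ⟨p, hp, hlt, hidx⟩ := (m1_testBit _ _).1 h1
      rw [← hidx] at hx
      rw [(val_idx T _ _ hlt).2 (h p hp)] at hx
      exact absurd hx (by simp)
  · intro h p hp
    have hne := arcs_ne q hq p hp
    by_contra hcon
    rcases lt_or_gt_of_ne hne with hlt | hlt
    · have h1 := h (idx p.1 p.2) (pr_idx _ _ hlt).2
      have hx : val T (idx p.1 p.2) = false := by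
        rw [Bool.eq_false_iff]
        intro h2
        exact hcon ((val_idx T _ _ hlt).1 h2)
      rw [hx] at h1
      have h2 : (m1 (arcsOf q)).testBit (idx p.1 p.2) = true :=
        (m1_testBit _ _).2 ⟨p, hp, hlt, rfl⟩
      change (m1 (arcsOf q)).testBit (idx p.1 p.2) = false at h1
      rw [h2] at h1
      exact absurd h1 (by simp)
    · have h1 := h (idx p.2 p.1) (pr_idx _ _ hlt).2
      have hx : val T (idx p.2 p.1) = true := by
        rw [val_idx T _ _ hlt]
        rcases hT.2 p.1 p.2 hne with h2 | h2
        · exact absurd h2.1 hcon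
        · exact h2.1
      rw [hx] at h1
      have h2 : (m0 (arcsOf q)).testBit (idx p.2 p.1) = true :=
        (m0_testBit _ _).2 ⟨p, hp, not_lt.2 hlt.le, rfl⟩
      change (m0 (arcsOf q)).testBit (idx p.2 p.1) = false at h1
      rw [h2] at h1
      exact absurd h1 (by simp)

theorem count_forced (T : Fin 7 → Fin 7 → Prop) (hT : IsTournament T)
    (hc : ∀ i : Fin 7, T i (i + 1)) :
    numCircuits T ≤ 15 ∨ numCircuits T = 17 ∨ numCircuits T = 24 := by
  classical
  have hv : ∀ k, k = 14 ∨ k = 15 ∨ k = 16 ∨ k = 17 ∨ k = 18 ∨ k = 19 ∨ k = 20 →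
      val T k = xf k := by
    have t : ∀ a b : Fin 7, a < b → T a b → val T (idx a b) = true := fun a b h h' =>
      (val_idx T a b h).2 h'
    intro k hk
    rcases hk with rfl | rfl | rfl | rfl | rfl | rfl | rfl
    · exact t 0 1 (by decide) (hc 0)
    · exact t 1 2 (by decide) (hc 1)
    · exact t 2 3 (by decide) (hc 2)
    · exact t 3 4 (by decide) (hc 3)
    · exact t 4 5 (by decide) (hc 4)
    · exact t 5 6 (by decide) (hc 5)
    · change val T (idx 0 6) = false
      rw [Bool.eq_false_iff]
      intro h
      have h1 := (val_idx T 0 6 (by decide)).1 h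
      have h2 : T 6 0 := hc 6
      rcases hT.2 0 6 (by decide) with h3 | h3
      · exact h3.2 h2
      · exact h3.2 h1
  have key : numCircuits T = L0.countP (sat (val T) 14) := by
    rw [numCircuits_eq T, L0, List.countP_filter, List.countP_map]
    apply List.countP_congr
    intro q hq
    rw [decide_eq_true_eq, okP_iff T hT q hq, sat_iff]
    simp only [Function.comp, Bool.and_eq_true, sat_iff, List.all_eq_true]
    constructor
    · intro h
      refine ⟨fun j hj => h j (by omega), fun k hk => ?_⟩
      simp only [List.mem_cons, List.not_mem_nil, or_false] at hk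
      rw [← hv k hk, Bool.not_eq_true']
      exact h k (by omega)
    · rintro ⟨h1, h2⟩ j hj
      by_cases hj2 : j < 14
      · exact h1 j hj2
      · have hk : j = 14 ∨ j = 15 ∨ j = 16 ∨ j = 17 ∨ j = 18 ∨ j = 19 ∨ j = 20 := by omega
        have h3 := h2 j (by simpa using hk)
        rw [Bool.not_eq_true'] at h3
        rw [hv j hk]
        exact h3
  rw [key]
  exact tree_sound (val T) 14 L0 tree_ok

theorem count_any (T : Fin 7 → Fin 7 → Prop) (hT : IsTournament T) :
    numCircuits T ≤ 15 ∨ numCircuits T = 17 ∨ numCircuits T = 24 := by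
  by_cases hne : (hamCircuits T).Nonempty
  · obtain ⟨A, _, v, hv, hvT, _⟩ := hne
    have h1 := numCircuits_relabel T v hv
    rw [← h1]
    apply count_forced
    · refine ⟨fun u => hT.1 _, fun a b hab => hT.2 _ _ (fun h => hab (hv.1 h))⟩
    · intro i
      exact hvT i
  · left
    rw [Set.not_nonempty_iff_eq_empty] at hne
    unfold numCircuits
    rw [hne, Set.ncard_empty]
    omega

/-- the tournament with a given code -/
def tb (c : ℕ) (a b : Fin 7) : Bool :=
  if a < b then c.testBit (idx a b) else if b < a then !(c.testBit (idx b a)) else false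

def S0 : List (ℕ × ℕ) := (ext 6 [0]).map mask

def okc (c : ℕ) (m : ℕ × ℕ) : Bool := (m.1 &&& (2097151 ^^^ c)) == 0 && (m.2 &&& c) == 0

def cnt (c : ℕ) : ℕ := S0.countP (okc c)

theorem okc_iff (c : ℕ) (hc : c < 2 ^ 21) (m : ℕ × ℕ) :
    okc c m = true ↔ sat (fun j => c.testBit j) 21 m = true := by
  have hx : ∀ j, (2097151 ^^^ c).testBit j = (decide (j < 21) && !(c.testBit j)) := by
    intro j
    have h1 : (2097151 : ℕ) = 2 ^ 21 - 1 := by norm_num
    rw [h1, Nat.testBit_xor, Nat.testBit_two_pow_sub_one]
    by_cases hj : j < 21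
    · simp [hj]
    · have h2 : c.testBit j = false :=
        Nat.testBit_lt_two_pow (lt_of_lt_of_le hc (Nat.pow_le_pow_right (by norm_num) (by omega)))
      simp [hj, h2]
  have hand : ∀ a b : ℕ, ((a &&& b) == 0) = true ↔ ∀ j, (a.testBit j && b.testBit j) = false := by
    intro a b
    rw [beq_iff_eq]
    constructor
    · intro h j
      rw [← Nat.testBit_and, h, Nat.zero_testBit]
    · intro h
      apply Nat.eq_of_testBit_eq
      intro j
      rw [Nat.testBit_and, h j, Nat.zero_testBit]
  rw [sat_iff, okc, Bool.and_eq_true, hand, hand]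
  constructor
  · rintro ⟨h1, h2⟩ j hj
    have h1' := h1 j
    have h2' := h2 j
    rw [hx] at h1'
    cases hcj : c.testBit j with
    | true =>
      change m.2.testBit j = false
      simpa [hcj] using h2'
    | false =>
      change m.1.testBit j = false
      simpa [hcj, hj] using h1'
  · intro h
    constructor
    · intro j
      rw [hx]
      by_cases hj : j < 21
      · have h' := h j hj
        cases hcj : c.testBit j with
        | true => simp
        | false =>
          rw [hcj] at h'
          change m.1.testBit j = false at h'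
          simp [h']
      · simp [hj]
    · intro j
      by_cases hj : j < 21
      · have h' := h j hj
        cases hcj : c.testBit j with
        | true =>
          rw [hcj] at h'
          change m.2.testBit j = false at h'
          simp [h']
        | false => simp
      · have h2 : c.testBit j = false :=
          Nat.testBit_lt_two_pow (lt_of_lt_of_le hc (Nat.pow_le_pow_right (by norm_num) (by omega)))
        simp [h2]

theorem idx_pr : ∀ j : Fin 21, (pr j.val).1 < (pr j.val).2 ∧
    idx (pr j.val).1 (pr j.val).2 = j.val := by decide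

theorem tb_tournament (c : ℕ) : IsTournament (fun a b => tb c a b = true) := by
  constructor
  · intro u
    simp [tb]
  · intro u v huv
    rcases lt_or_gt_of_ne huv with h | h
    · have h' : ¬ v < u := not_lt.2 h.le
      simp only [tb, if_pos h, if_neg h', Bool.not_eq_true']
      cases c.testBit (idx u v) <;> simp
    · have h' : ¬ u < v := not_lt.2 h.le
      simp only [tb, if_pos h, if_neg h', Bool.not_eq_true']
      cases c.testBit (idx v u) <;> simp

theorem val_tb (c : ℕ) (j : ℕ) (hj : j < 21) :
    val (fun a b => tb c a b = true) j = c.testBit j := by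
  obtain ⟨h1, h2⟩ := idx_pr ⟨j, hj⟩
  change (pr j).1 < (pr j).2 at h1
  change idx (pr j).1 (pr j).2 = j at h2
  have h3 := val_idx (fun a b => tb c a b = true) _ _ h1
  rw [h2] at h3
  have h4 : tb c (pr j).1 (pr j).2 = c.testBit j := by
    rw [tb, if_pos h1, h2]
  rw [h4] at h3
  exact Bool.eq_iff_iff.2 h3

theorem cnt_eq (c : ℕ) (hc : c < 2 ^ 21) :
    numCircuits (fun a b => tb c a b = true) = cnt c := by
  rw [numCircuits_eq, cnt, S0, List.countP_map]
  apply List.countP_congr
  intro q hq
  rw [decide_eq_true_eq, okP_iff _ (tb_tournament c) q hq]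
  change _ ↔ okc c (mask q) = true
  rw [okc_iff c hc, sat_iff, sat_iff]
  constructor
  · intro h j hj
    rw [← val_tb c j hj]; exact h j hj
  · intro h j hj
    rw [val_tb c j hj]; exact h j hj

def wit : List (ℕ × ℕ) :=
  [(0, 2097151), (1, 1032192), (2, 1032194), (3, 1032196), (4, 1032200), (5, 1032204),
   (6, 1032216), (7, 1032260), (8, 1032266), (9, 1032268), (10, 1032580), (11, 1032330),
   (12, 1032328), (13, 1032600), (14, 1032332), (15, 1032396), (17, 1033129), (24, 1035939)]

set_option maxRecDepth 100000 in
theorem wit_ok : wit.all (fun w => cnt w.2 == w.1 && decide (w.2 < 2097152)) = true := by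
  decide +kernel

theorem mem_spectrum (h c : ℕ) (hw : (h, c) ∈ wit) : h ∈ spectrum 7 := by
  have h1 := List.all_eq_true.1 wit_ok (h, c) hw
  rw [Bool.and_eq_true, beq_iff_eq, decide_eq_true_eq] at h1
  exact ⟨fun a b => tb c a b = true, tb_tournament c, by
    rw [cnt_eq c (by norm_num; exact h1.2)]; exact h1.1⟩

theorem spectrum_seven : spectrum 7 = {h | h ≤ 15 ∨ h = 17 ∨ h = 24} := by
  ext h
  constructor
  · rintro ⟨T, hT, rfl⟩
    exact count_any T hT
  · rintro (h1 | rfl | rfl)
    · interval_cases h
      · exact mem_spectrum 0 2097151 (by simp [wit])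
      · exact mem_spectrum 1 1032192 (by simp [wit])
      · exact mem_spectrum 2 1032194 (by simp [wit])
      · exact mem_spectrum 3 1032196 (by simp [wit])
      · exact mem_spectrum 4 1032200 (by simp [wit])
      · exact mem_spectrum 5 1032204 (by simp [wit])
      · exact mem_spectrum 6 1032216 (by simp [wit])
      · exact mem_spectrum 7 1032260 (by simp [wit])
      · exact mem_spectrum 8 1032266 (by simp [wit])
      · exact mem_spectrum 9 1032268 (by simp [wit])
      · exact mem_spectrum 10 1032580 (by simp [wit])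
      · exact mem_spectrum 11 1032330 (by simp [wit])
      · exact mem_spectrum 12 1032328 (by simp [wit])
      · exact mem_spectrum 13 1032600 (by simp [wit])
      · exact mem_spectrum 14 1032332 (by simp [wit])
      · exact mem_spectrum 15 1032396 (by simp [wit])
    · exact mem_spectrum 17 1033129 (by simp [wit])
    · exact mem_spectrum 24 1035939 (by simp [wit])

theorem ho_seven : ho 7 = 24 := by
  unfold ho
  apply IsGreatest.csSup_eq
  rw [spectrum_seven]
  constructor
  · right; right; rfl
  · rintro h (h1 | h1 | h1) <;> omega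

end Pool.Agent.TH503.HC
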