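import Pool.Agent.TH503.HC.Main

set_option autoImplicit false

/-!
# The numbers of Hamiltonian circuits of tournaments do not fill an interval

The 7-tournaments have exactly `0, 1, …, 15, 17` or `24` Hamiltonian circuits; in particular
`16 < 24 = h_o(7)` is not realised.
-/

namespace Pool.Agent.TH503.HC.Spectrum7

open Pool.Agent.TH503.HC

/-- The numbers of Hamiltonian circuits of 7-tournaments are exactly `0, 1, …, 15, 17, 24`; so
`h_o(7) = 24` and it is not true that for every `n ≥ 1` each `h ≤ h_o(n)` is the number of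
Hamiltonian circuits of some `n`-tournament. -/
theorem result :
    spectrum 7 = {h | h ≤ 15 ∨ h = 17 ∨ h = 24} ∧ ho 7 = 24 ∧
      ¬ ∀ n : ℕ, 1 ≤ n → ∀ h : ℕ, h ≤ ho n → h ∈ spectrum n := by
  refine ⟨spectrum_seven, ho_seven, ?_⟩
  intro H
  have h16 := H 7 (by norm_num) 16 (by rw [ho_seven]; norm_num)
  rw [spectrum_seven] at h16
  rcases h16 with h | h | h
  · exact absurd h (by norm_num)
  · exact absurd h (by norm_num)
  · exact absurd h (by norm_num)

end Pool.Agent.TH503.HC.Spectrum7
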